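import Mathlib

set_option autoImplicit false

namespace Pool.Agent.H.MP_3bc7a7_gt.A

open Set Function Filter Topology Cardinal

abbrev J : Type := (aleph 1).ord.ToType

theorem cI (a : J) : (Iic a).Countable := by
  rw [← Iio_union_right]
  refine Countable.union ?_ (countable_singleton a)
  rw [← le_aleph0_iff_set_countable, ← Order.lt_succ_iff, succ_aleph0]
  exact mk_Iio_toType_ord_lt a

theorem sur (h : continuum.{0} = aleph 1) :
    ∃ e : J → (List ℕ → Set ℕ) × Set ℕ, Surjective e := by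
  obtain ⟨e⟩ : Nonempty (J ≃ (List ℕ → Set ℕ) × Set ℕ) := Cardinal.eq.1 (by simp [← h])
  exact ⟨e, e.surjective⟩

theorem tower (h : continuum.{0} = aleph 1) : ∃ (W : Type) (_ : LinearOrder W) (_ : WellFoundedLT W)
    (A : W → Set ℕ), (∀ a : W, (Iic a).Countable) ∧ (∀ a b, a ≤ b → (A a \ A b).Finite) ∧
      (∀ a, (A a)ᶜ.Infinite) ∧ (∀ B : Set ℕ, B.Infinite → ∃ a, (B ∩ A a).Infinite) ∧
      ∀ C : Set W, C.Countable → ∃ a, ∀ c ∈ C, c ≤ a := by
  obtain ⟨e, he⟩ := sur h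
  let S : J → Prop := wellFounded_lt.fix fun j S =>
    (e j).2ᶜ.Infinite ∧ ∀ i (l : i < j), S i l → ((e i).2 \ (e j).2).Finite
  have hS : ∀ j, S j ↔ (e j).2ᶜ.Infinite ∧ ∀ i < j, S i → ((e i).2 \ (e j).2).Finite := fun j =>
    iff_of_eq (wellFounded_lt.fix_eq _ j)
  have m : ∀ a b : {j // S j}, a ≤ b → ((e a).2 \ (e b).2).Finite := fun a b l =>
    l.eq_or_lt.elim (fun l => by simp [l]) fun l => ((hS _).1 b.2).2 _ l a.2
  have t : ∀ B : Set ℕ, B.Infinite → ∃ a : {j // S j}, (B ∩ (e a).2).Infinite := fun B k => by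
    by_contra! l
    let x := k.natEmbedding
    obtain ⟨j, o⟩ := he (fun _ => ∅, (range fun n => (x (2 * n)).1)ᶜ)
    have i : Injective fun n => (x n).1 := Subtype.val_injective.comp x.injective
    refine infinite_of_injective_forall_mem (f := fun n => (x (2 * n + 1)).1)
      (fun a b p => by have := i p; omega) (fun n => And.intro (x _).2 ?_) (l ⟨j, (hS j).2
        ⟨?_, fun i _ p => (l ⟨i, p⟩).subset fun y q => ⟨?_, q.1⟩⟩⟩)
    · rw [o]
      rintro ⟨a, p⟩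
      have := i p
      omega
    · rw [o, compl_compl]
      exact infinite_range_of_injective fun a b p => by have := i p; omega
    · rw [o] at q
      obtain ⟨n, rfl⟩ := not_not.1 q.2
      exact (x _).2
  refine ⟨{j // S j}, inferInstance, inferInstance, fun j => (e j).2,
    fun a => (cI a.1).preimage Subtype.val_injective, m, fun a => ((hS _).1 a.2).1, t,
    fun C k => by_contra fun l => ?_⟩
  have := k.to_subtype
  have : NeBot (⨅ c : C, atTop ⊓ 𝓟 (e c).2ᶜ) := iInf_neBot_of_directed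
    (Antitone.directed_ge fun a b p => le_inf inf_le_left (le_principal_iff.2 (mem_inf_principal.2
      (mem_of_superset (Nat.cofinite_eq_atTop ▸ (m a b p).compl_mem_cofinite)
        fun y (q : ¬ _) r s => q ⟨s, r⟩))))
    fun c => frequently_mem_iff_neBot.1 (Nat.frequently_atTop_iff_infinite.2 ((hS _).1 c.1.2).1)
  obtain ⟨x, p⟩ := exists_seq_tendsto (⨅ c : C, atTop ⊓ 𝓟 (e c).2ᶜ)
  push Not at l
  obtain ⟨a₀, -⟩ := t _ infinite_univ
  obtain ⟨c₀, c₁, -⟩ := l a₀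
  simp only [tendsto_iInf, tendsto_inf, tendsto_principal] at p
  obtain ⟨a, q⟩ := t (range x) fun f =>
    f.bddAbove.elim fun n v => ((p ⟨c₀, c₁⟩).1.eventually_gt_atTop n).exists.elim fun m w =>
      w.not_ge (v ⟨m, rfl⟩)
  obtain ⟨c, r, s⟩ := l a
  refine q (((m a c s.le).union (((Nat.cofinite_eq_atTop ▸ (p ⟨c, r⟩).2 :
    ∀ᶠ n in cofinite, _) : Set.Finite _).image x)).subset ?_)
  rintro _ ⟨⟨n, rfl⟩, v⟩
  exact or_iff_not_imp_left.2 fun w => ⟨n, fun y => w ⟨v, y⟩, rfl⟩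

theorem dd (h : continuum.{0} = aleph 1) : ∃ (b : J → ℕ → List ℕ) (d : J → ℕ → ℕ),
    (∀ i, b i 0 = []) ∧ (∀ i n, b i (n + 1) = d i n :: b i n) ∧
    (∀ N : List ℕ → Set ℕ, (∀ s, (N s).Finite) → {i | ∀ n, d i n ∈ N (b i n)}.Countable) ∧
    ∀ N : List ℕ → Set ℕ, (∀ s, (N s).Infinite) → ¬ {i | ∀ n, d i n ∈ N (b i n)}.Countable := by
  obtain ⟨e, he⟩ := sur h
  have : ∀ P Q : Set ℕ, ∃ k, (P.Infinite → k ∈ P) ∧ (Q.Finite → k ∉ Q) := fun P Q => by
    by_cases p : P.Infinite <;> by_cases q : Q.Finite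
    · exact (p.diff q).nonempty.imp fun k l => ⟨fun _ => l.1, fun _ => l.2⟩
    · exact p.nonempty.imp fun k l => ⟨fun _ => l, fun r => (q r).elim⟩
    · exact q.infinite_compl.nonempty.imp fun k l => ⟨fun r => (p r).elim, fun _ => l⟩
    · exact ⟨0, fun r => (p r).elim, fun r => (q r).elim⟩
  choose k k1 k2 using this
  choose j hj using fun i => (cI i).exists_eq_range nonempty_Iic
  let b : J → ℕ → List ℕ := fun i =>
    Nat.rec [] fun n s => k ((e i).1 s) ((e (j i n)).1 s) :: s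
  refine ⟨b, fun i n => k ((e i).1 (b i n)) ((e (j i n)).1 (b i n)), fun _ => rfl, fun _ _ => rfl,
    fun N p => ?_, fun N p q => (countable_univ_iff.1
      ((q.image fun i => (e i).2).mono fun B _ => ?_)).exists_injective_nat'.elim cantor_injective⟩
  · obtain ⟨a, q⟩ := he (N, ∅)
    refine (cI a).mono fun i r => le_of_not_ge (a := a) fun s => ?_
    obtain ⟨n, rfl⟩ := (hj i).le s
    have := r n
    simp only [q] at this
    exact k2 _ _ (p _) this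
  · obtain ⟨a, r⟩ := he (N, B)
    exact ⟨a, fun n => by simpa only [r] using k1 _ _ (p _), by simp only [r]⟩

theorem red {X : Type} [TopologicalSpace X] [T4Space X] [FirstCountableTopology X] (D : Set X)
    (h0 : ∀ x ∈ D, IsOpen {x})
    (h1 : ∀ 𝒰 : Set (Set X), (∀ U ∈ 𝒰, IsOpen U) → (∀ x, ∃ U ∈ 𝒰, x ∈ U) →
      ∃ 𝒱 ⊆ 𝒰, 𝒱.Countable ∧ D ⊆ ⋃₀ 𝒱) (h2 : ∀ L, D ⊆ L → ¬ IsLindelof L) :
    ∃ (Y : Type) (_ : TopologicalSpace Y), T4Space Y ∧ FirstCountableTopology Y ∧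
      (∀ 𝒰 : Set (Set Y), (∀ U ∈ 𝒰, IsOpen U) → ⋃₀ 𝒰 = Set.univ →
        ∃ 𝒱 ⊆ 𝒰, 𝒱.Countable ∧ Dense (⋃₀ 𝒱)) ∧
      ¬ ∀ 𝒰 : Set (Set Y), (∀ U ∈ 𝒰, IsOpen U ∧ U.Nonempty) → 𝒰.PairwiseDisjoint id →
        ∃ L : Set Y, IsLindelof L ∧ ∀ U ∈ 𝒰, (L ∩ U).Nonempty := by
  have := (isClosed_closure (s := D)).isClosedEmbedding_subtypeVal.normalSpace
  refine ⟨closure D, inferInstance, {}, inferInstance, fun 𝒰 o c => ?_, fun h => ?_⟩
  · obtain ⟨𝒱, k, l, m⟩ := h1 {O | IsOpen O ∧ (Subtype.val ⁻¹' O ∈ 𝒰 ∨ O = (closure D)ᶜ)}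
      (fun _ => And.left) fun x => by
        by_cases k : x ∈ closure D
        · obtain ⟨U, l, m⟩ := c.ge (mem_univ (⟨x, k⟩ : closure D))
          obtain ⟨O, p, rfl⟩ := o U l
          exact ⟨O, ⟨p, .inl l⟩, m⟩
        · exact ⟨_, ⟨isClosed_closure.isOpen_compl, .inr rfl⟩, k⟩
    refine ⟨preimage Subtype.val '' 𝒱 ∩ 𝒰, inter_subset_right, (l.image _).mono inter_subset_left,
      Subtype.dense_iff.2 (closure_mono fun x p => ?_)⟩
    obtain ⟨O, q, r⟩ := m p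
    exact ⟨⟨x, subset_closure p⟩, ⟨_, ⟨⟨O, q, rfl⟩, (k q).2.resolve_right
      fun s => (s ▸ r :) (subset_closure p)⟩, r⟩, rfl⟩
  · obtain ⟨L, k, l⟩ := h (singleton '' {y | y.1 ∈ D}) (forall_mem_image.2 fun y k =>
      ⟨⟨_, h0 _ k, by ext; simp [Subtype.ext_iff]⟩, y, rfl⟩) (by
        rintro _ ⟨x, -, rfl⟩ _ ⟨y, -, rfl⟩ k
        exact disjoint_singleton.2 fun l => k (l ▸ rfl))
    refine h2 _ (fun x m => ?_) (k.image continuous_subtype_val)
    obtain ⟨_, p, rfl⟩ := l _ ⟨⟨x, subset_closure m⟩, m, rfl⟩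
    exact ⟨_, p, rfl⟩

end Pool.Agent.H.MP_3bc7a7_gt.A
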