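import Pool.Agent.H.MP_3bc7a7_gt.A

set_option autoImplicit false

namespace Pool.Agent.H.MP_3bc7a7_gt.B

open Set Function Filter Topology Pool.Agent.H.MP_3bc7a7_gt.A

theorem suc {s t : List ℕ} (h : s <:+ t) (k : s ≠ t) : ∃ k, k :: s <:+ t := by
  obtain ⟨u, rfl⟩ := h
  rcases u.eq_nil_or_concat' with rfl | ⟨u, a, rfl⟩
  exacts [(k rfl).elim, ⟨a, u, by simp⟩]

theorem main (h : Cardinal.continuum.{0} = Cardinal.aleph 1) :
    ∃ (Y : Type) (_ : TopologicalSpace Y), T4Space Y ∧ FirstCountableTopology Y ∧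
      (∀ 𝒰 : Set (Set Y), (∀ U ∈ 𝒰, IsOpen U) → ⋃₀ 𝒰 = univ →
        ∃ 𝒱 ⊆ 𝒰, 𝒱.Countable ∧ Dense (⋃₀ 𝒱)) ∧
      ¬ ∀ 𝒰 : Set (Set Y), (∀ U ∈ 𝒰, IsOpen U ∧ U.Nonempty) → 𝒰.PairwiseDisjoint id →
        ∃ L : Set Y, IsLindelof L ∧ ∀ U ∈ 𝒰, (L ∩ U).Nonempty := by
  obtain ⟨W, _, _, A, a0, a1, a2, a3, a4⟩ := tower h
  obtain ⟨b, d, b0, b1, b2, b3⟩ := dd h
  let c : J ⊕ List ℕ × W → ℕ → List ℕ := Sum.elim b fun p _ => p.1
  let U : List ℕ → Set (J ⊕ List ℕ × W) := fun t => {y | ∃ n, t <:+ c y n}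
  let V : List ℕ → W → Set (J ⊕ List ℕ × W) := fun t β =>
    {y | (∃ k ∈ A β, y ∈ U (k :: t)) ∨ ∃ γ ≤ β, y = .inr (t, γ)}
  let S : J ⊕ List ℕ × W → Set (Set (J ⊕ List ℕ × W)) := Sum.elim (fun i => {{.inl i}}) fun p =>
    insert (V p.1 p.2) ((fun β => (V p.1 β)ᶜ) '' Iio p.2 ∪ range fun k => (U (k :: p.1))ᶜ)
  have c1 : ∀ y n m, n ≤ m → c y n <:+ c y m := fun y n m k => by
    induction k with
    | refl => rfl
    | step _ l => cases y; exacts [l.trans (b1 _ _ ▸ List.suffix_cons _ _ :), l]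
  have u1 : ∀ {s t}, s <:+ t → U t ⊆ U s := fun k y => Exists.imp fun _ => k.trans
  have u2 : ∀ {s t y}, y ∈ U s → y ∈ U t → s <:+ t ∨ t <:+ s := fun ⟨n, k⟩ ⟨m, l⟩ =>
    List.suffix_or_suffix_of_suffix (k.trans (c1 _ _ _ (le_max_left n m)))
      (l.trans (c1 _ _ _ (le_max_right n m)))
  have u3 : ∀ {s t γ}, Sum.inr (s, γ) ∈ U t ↔ t <:+ s := ⟨fun ⟨_, k⟩ => k, fun k => ⟨0, k⟩⟩
  have u4 : ∀ {k s γ}, Sum.inr (s, γ) ∉ U (k :: s) := fun k => by simpa using (u3.1 k).length_le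
  have u5 : ∀ {s y}, y ∈ U s → (∃ k, y ∈ U (k :: s)) ∨ ∃ γ, y = .inr (s, γ) := by
    rintro s (i | ⟨t, γ⟩) ⟨n, k⟩
    · obtain ⟨j, l⟩ := suc (k.trans (c1 _ _ _ n.le_succ)) fun l => by
        have := k.length_le
        simp [l, c, b1] at this
      exact .inl ⟨j, _, l⟩
    · exact (em (s = t)).elim (fun l => .inr ⟨γ, l ▸ rfl⟩) fun l =>
        .inl ((suc k l).imp fun _ => u3.2)
  have v1 : ∀ {s β}, V s β ⊆ U s := by
    rintro s β y (⟨k, -, l⟩ | ⟨γ, -, rfl⟩)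
    exacts [u1 (List.suffix_cons _ _) l, u3.2 List.suffix_rfl]
  have v2 : ∀ {s β γ}, Sum.inr (s, γ) ∈ V s β ↔ γ ≤ β :=
    ⟨fun k => k.elim (fun ⟨_, _, l⟩ => (u4 l).elim) fun ⟨_, l, m⟩ => by cases m; exact l,
      fun k => .inr ⟨_, k, rfl⟩⟩
  have v3 : ∀ {s β k y}, y ∈ U (k :: s) → (y ∈ V s β ↔ k ∈ A β) := fun {s β k y} l =>
    ⟨fun m => m.elim (fun ⟨j, p, q⟩ => by
      obtain rfl : j = k := (u2 q l).elim (fun r => (List.cons.inj (r.eq_of_length rfl)).1)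
        fun r => (List.cons.inj (r.eq_of_length rfl)).1.symm
      exact p) fun ⟨_, _, p⟩ => (u4 (p ▸ l :)).elim, fun m => .inl ⟨k, m, l⟩⟩
  letI := TopologicalSpace.mkOfNhds fun x => generate (S x)
  have op : ∀ O, (∀ s α, Sum.inr (s, α) ∈ O → O ∈ generate (S (.inr (s, α)))) → IsOpen O :=
    fun O k => Sum.rec (fun i l => .superset (.basic rfl) (singleton_subset_iff.2 l)) fun p => k _ _
  have g1 : ∀ s α, V s α ∈ generate (S (.inr (s, α))) := fun s α => .basic (.inl rfl)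
  have g2 : ∀ s α β, β < α → (V s β)ᶜ ∈ generate (S (.inr (s, α))) := fun s α β k =>
    .basic (.inr (.inl ⟨β, k, rfl⟩))
  have g3 : ∀ s α k, (U (k :: s))ᶜ ∈ generate (S (.inr (s, α))) := fun s α k =>
    .basic (.inr (.inr ⟨k, rfl⟩))
  have cU : ∀ t, IsClopen (U t) := fun t => ⟨⟨op _ fun s α k => (em (s <:+ t)).elim
    (fun l => (suc l fun m => k (u3.2 (m ▸ List.suffix_rfl))).elim fun j m =>
      mem_of_superset (g3 s α j) (compl_subset_compl.2 (u1 m))) fun l =>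
      mem_of_superset (g1 s α) fun y m p => (u2 (v1 m) p).elim l fun q => k (u3.2 q)⟩,
    op _ fun s α k => mem_of_superset (g1 s α) (v1.trans (u1 (u3.1 k)))⟩
  have cV : ∀ t β, IsClopen (V t β) := fun t β => ⟨⟨op _ fun s α k => by
      by_cases l : Sum.inr (s, α) ∈ U t
      · rcases u5 l with ⟨j, l⟩ | ⟨γ, l⟩
        · exact mem_of_superset ((cU _).isOpen _ l) fun y m p => k ((v3 l).2 ((v3 m).1 p))
        · cases l
          exact g2 _ _ _ (not_le.1 (mt v2.2 k))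
      · exact mem_of_superset ((cU t).compl.isOpen _ l) (compl_subset_compl.2 v1)⟩,
    op _ fun s α k => by
      rcases k with ⟨j, k, l⟩ | ⟨γ, k, l⟩
      · exact mem_of_superset ((cU _).isOpen _ l) fun y m => .inl ⟨j, k, m⟩
      cases l
      filter_upwards [g1 t α, (biInter_mem (a1 α β k)).2 fun j _ => g3 t α j] with y l m
      exact l.imp (Exists.imp fun j p => ⟨by_contra fun q => mem_iInter₂.1 m j ⟨p.1, q⟩ p.2, p.2⟩)
        (Exists.imp fun γ p => ⟨p.1.trans k, p.2⟩)⟩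
  have cD : ∀ i, IsClopen {Sum.inl i} := fun i => ⟨⟨op _ fun s α _ =>
    (em (∃ k, Sum.inl i ∈ U (k :: s))).elim (fun ⟨k, l⟩ => mem_of_superset (g3 s α k)
      (compl_subset_compl.2 (singleton_subset_iff.2 l))) fun l => mem_of_superset (g1 s α)
        fun y m p => (p ▸ m :).elim (fun ⟨k, _, q⟩ => l ⟨k, q⟩) nofun⟩, op _ nofun⟩
  have cl : ∀ x, ∀ O ∈ S x, IsClopen O ∧ x ∈ O := by
    rintro (i | ⟨s, α⟩) O
    · rintro rfl
      exact ⟨cD i, rfl⟩
    rintro (rfl | ⟨β, k, rfl⟩ | ⟨k, rfl⟩)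
    exacts [⟨cV _ _, v2.2 le_rfl⟩, ⟨(cV _ _).compl, mt v2.1 k.not_ge⟩, ⟨(cU _).compl, u4⟩]
  have nh : ∀ x, 𝓝 x = generate (S x) := fun x => le_antisymm
    (le_generate_iff.2 fun O k => (cl x O k).1.isOpen.mem_nhds (cl x O k).2) fun O k =>
      let ⟨t, l, m, p⟩ := mem_nhds_iff.1 k; mem_of_superset (m x p) l
  have : FirstCountableTopology (J ⊕ List ℕ × W) := ⟨fun x => ⟨S x, by
    cases x
    exacts [countable_singleton _, ((((a0 _).mono Iio_subset_Iic_self).image _).union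
      (countable_range _)).insert _], nh x⟩⟩
  have : RegularSpace (J ⊕ List ℕ × W) := .of_lift'_closure_le fun x =>
    (le_generate_iff.2 fun O k => (cl x O k).1.isClosed.closure_eq ▸
      mem_lift' ((cl x O k).1.isOpen.mem_nhds (cl x O k).2)).trans (nh x).ge
  have : T1Space (J ⊕ List ℕ × W) := ⟨fun x => by
    suffices ⋂₀ S x = {x} from this ▸ isClosed_sInter fun O k => (cl x O k).1.isClosed
    refine subset_antisymm (fun y k => ?_) (singleton_subset_iff.2 fun O k => (cl x O k).2)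
    rcases x with i | ⟨s, α⟩
    · exact k _ rfl
    rcases k _ (.inl rfl) with ⟨j, -, l⟩ | ⟨γ, l, rfl⟩
    · exact (k _ (.inr (.inr ⟨j, rfl⟩)) l).elim
    · rw [l.antisymm (not_lt.1 fun m => k _ (.inr (.inl ⟨γ, m, rfl⟩)) (v2.2 le_rfl))]
      rfl⟩
  have ac : ∀ s (B : Set ℕ), B.Infinite → ∃ γ, ∀ O ∈ 𝓝 (Sum.inr (s, γ)),
      ∃ k ∈ B, U (k :: s) ⊆ O := fun s B k => by
    obtain ⟨γ, l, m⟩ := wellFounded_lt.has_min {α | (B ∩ A α).Infinite} (a3 B k)
    have : NeBot (cofinite ⊓ 𝓟 (B ∩ A γ)) :=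
      frequently_mem_iff_neBot.1 (frequently_cofinite_mem_iff_infinite.2 l)
    refine ⟨γ, fun O p => Eventually.exists (f := cofinite ⊓ 𝓟 (B ∩ A γ))
      ((eventually_inf_principal.2 (.of_forall fun _ => And.left)).and ?_)⟩
    rw [nh] at p
    induction p with
    | basic p =>
      rw [eventually_inf_principal]
      rcases p with rfl | ⟨β, q, rfl⟩ | ⟨j, rfl⟩
      · exact .of_forall fun j q y r => .inl ⟨j, q.2, r⟩
      · exact mem_of_superset (not_infinite.1 (m β · q)).compl_mem_cofinite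
          fun j r v y w z => r ⟨v.1, (v3 w).1 z⟩
      · exact (eventually_cofinite_ne j).mono fun i q _ y r v => q
          ((u2 r v).elim (fun r => (List.cons.inj (r.eq_of_length rfl)).1)
            fun r => (List.cons.inj (r.eq_of_length rfl)).1.symm)
    | univ => exact .of_forall fun _ => subset_univ _
    | superset _ q r => exact r.mono fun _ v => v.trans q
    | inter _ _ q r => exact (q.and r).mono fun _ v => subset_inter v.1 v.2
  have cb : ∀ s (H K : Set (J ⊕ List ℕ × W)), IsClosed H → IsClosed K → Disjoint H K →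
      ∃ β, (∀ γ, .inr (s, γ) ∈ H → γ ≤ β) ∨ ∀ γ, .inr (s, γ) ∈ K → γ ≤ β := fun s H K k l m => by
    by_contra! p
    choose f f1 f2 using fun β => (p β).1
    choose g g1 g2 using fun β => (p β).2
    obtain ⟨a, -⟩ := a3 _ infinite_univ
    let x : ℕ → W := Nat.rec a fun _ y => g (f y)
    obtain ⟨γ, q, r⟩ := wellFounded_lt.has_min {γ | ∀ y ∈ range x, y ≤ γ} (a4 _ (countable_range x))
    have : ∀ y : ℕ → W, (∀ n, x n ≤ y n ∧ y n ≤ x (n + 1)) →
        Tendsto (fun n => Sum.inr (s, y n)) atTop (𝓝 (.inr (s, γ))) := fun y v => by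
      rw [nh]
      refine le_generate_iff.2 ?_
      rintro _ (rfl | ⟨β, w, rfl⟩ | ⟨j, rfl⟩)
      · exact Eventually.of_forall (f := atTop) fun n => v2.2 ((v n).2.trans (q _ ⟨n + 1, rfl⟩))
      · obtain ⟨n, z⟩ : ∃ n, β < x n := by simpa using (r β · w)
        exact (eventually_ge_atTop n).mono fun m e => mt v2.1 (z.trans_le ((monotone_nat_of_le_succ
          (fun n => (v n).1.trans (v n).2) e).trans (v m).1)).not_ge
      · exact Eventually.of_forall (f := atTop) fun n => u4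
    exact disjoint_left.1 m (k.mem_of_tendsto (this (fun n => f (x n)) fun n =>
      ⟨(f2 _).le, (g2 _).le⟩) (.of_forall fun n => f1 _)) (l.mem_of_tendsto (this
        (fun n => x (n + 1)) fun n => ⟨((f2 _).trans (g2 _)).le, le_rfl⟩) (.of_forall fun n => g1 _))
  have sp : ∀ H K : Set (J ⊕ List ℕ × W), IsClosed H → IsClosed K → Disjoint H K →
      HasSeparatingCover H K := fun H K k l m => by
    have : ∀ s, ∃ β C, (IsOpen C ∧ Disjoint (closure C) K) ∧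
        ∀ γ, .inr (s, γ) ∈ H → γ ≤ β ∨ .inr (s, γ) ∈ C := fun s => by
      obtain ⟨β, p | p⟩ := cb s H K k l m
      · exact ⟨β, ∅, by simp, fun γ q => .inl (p γ q)⟩
      have q : {j | (U (j :: s) ∩ (K \ V s β)).Nonempty}.Finite := by_contra fun q => by
        obtain ⟨γ, r⟩ := ac s _ q
        have : Sum.inr (s, γ) ∈ K \ V s β := (l.sdiff (cV s β).isOpen).closure_subset
          (mem_closure_iff_nhds.2 fun O v => (r O v).elim fun j w =>
            w.1.mono (inter_subset_inter_left _ w.2))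
        exact this.2 (v2.2 (p γ this.1))
      have r := ((cU s).diff (cV s β)).diff (q.isClopen_biUnion fun j _ => cU (j :: s))
      refine ⟨β, _, ⟨r.isOpen, r.isClosed.closure_eq.symm ▸ disjoint_left.2 fun y v w => ?_⟩,
        fun γ _ => (le_or_gt γ β).imp_right fun v => ⟨⟨u3.2 List.suffix_rfl, mt v2.1 v.not_ge⟩,
          fun w => (mem_iUnion₂.1 w).elim fun _ z => u4 z.2⟩⟩
      rcases u5 v.1.1 with ⟨j, z⟩ | ⟨γ, rfl⟩
      exacts [v.2 (mem_biUnion ⟨y, z, w, v.1.2⟩ z), v.1.2 (v2.2 (p γ w))]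
    choose β C c1 c2 using this
    choose! u u1 u2 u3 using fun x (p : x ∈ H) =>
      exists_mem_nhds_isClosed_subset (l.compl_mem_nhds (disjoint_left.1 m p))
    obtain ⟨e, he⟩ := (((countable_range C).union (((countable_iUnion fun s => (a0 (β s)).image
      fun γ => Sum.inr (s, γ)).mono (inter_subset_right (s := H))).image
        fun x => interior (u x))).insert (H ∩ range .inl)).exists_eq_range (insert_nonempty _ _)
    refine ⟨e, sUnion_range e ▸ he ▸ fun x p => ?_, forall_mem_range (p := fun C =>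
      IsOpen C ∧ Disjoint (closure C) K).1 (he ▸ ?_)⟩
    · rcases x with i | ⟨s, γ⟩
      · exact ⟨_, .inl rfl, p, i, rfl⟩
      exact (c2 s γ p).elim (fun q => ⟨_, .inr (.inr ⟨_, ⟨p, mem_iUnion.2 ⟨s, γ, q, rfl⟩⟩, rfl⟩),
        mem_interior_iff_mem_nhds.2 (u1 _ p)⟩) fun q => ⟨_, .inr (.inl ⟨s, rfl⟩), q⟩
    rintro _ (rfl | ⟨s, rfl⟩ | ⟨x, p, rfl⟩)
    exacts [⟨op _ fun _ _ p => (nomatch p.2), m.mono_left (closure_minimal inter_subset_left k)⟩, c1 s,
      ⟨isOpen_interior, disjoint_left.2 fun y q =>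
        u3 x p.1 (closure_minimal interior_subset (u2 x p.1) q)⟩]
  have : NormalSpace (J ⊕ List ℕ × W) := ⟨fun H K k l m =>
    hasSeparatingCovers_iff_separatedNhds.1 ⟨sp H K k l m, sp K H l k m.symm⟩⟩
  have : T4Space (J ⊕ List ℕ × W) := {}
  refine red (range (Sum.inl : J → J ⊕ List ℕ × W)) (forall_mem_range.2 fun i => (cD i).isOpen) (fun 𝒰 o k => ?_)
    fun L k l => ?_
  · choose f f1 f2 using k
    choose! g g1 g2 using fun t (p : ∃ O ∈ 𝒰, U t ⊆ O) => p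
    have := b2 (fun s => {j | ¬ ∃ O ∈ 𝒰, U (j :: s) ⊆ O}) fun s => by_contra fun q => by
      obtain ⟨γ, r⟩ := ac s _ q
      obtain ⟨j, v, w⟩ := r _ ((o _ (f1 _)).mem_nhds (f2 _))
      exact v ⟨_, f1 _, w⟩
    refine ⟨g '' {t | ∃ O ∈ 𝒰, U t ⊆ O} ∪ (fun i => f (.inl i)) '' _, union_subset
      (image_subset_iff.2 g1) (image_subset_iff.2 fun i _ => f1 _),
      ((to_countable _).image _).union (this.image _), range_subset_iff.2 fun i => ?_⟩
    by_cases p : ∀ n, ¬ ∃ O ∈ 𝒰, U (d i n :: b i n) ⊆ O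
    · exact ⟨_, .inr ⟨i, p, rfl⟩, f2 _⟩
    obtain ⟨n, p⟩ := not_forall_not.1 p
    exact ⟨_, .inl ⟨_, p, rfl⟩, g2 _ p ⟨n + 1, (b1 i n).symm ▸ List.suffix_rfl⟩⟩
  obtain ⟨a, -⟩ := a3 _ infinite_univ
  have : ∀ s, ∃ α, ∀ γ, .inr (s, γ) ∈ L → γ ≤ α := fun s => by
    obtain ⟨r, p, q⟩ := l.elim_countable_subcover (fun β => V s β ∪ ((U s)ᶜ ∪ ⋃ j, U (j :: s)))
      (fun β => (cV s β).isOpen.union ((cU s).compl.isOpen.union
        (isOpen_iUnion fun j => (cU _).isOpen))) fun y _ => mem_iUnion.2 (by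
          by_cases p : y ∈ U s
          · rcases u5 p with p | ⟨γ, rfl⟩
            exacts [⟨a, .inr (.inr (mem_iUnion.2 p))⟩, ⟨γ, .inl (v2.2 le_rfl)⟩]
          · exact ⟨a, .inr (.inl p)⟩)
    refine (a4 r p).imp fun α v γ w => ?_
    obtain ⟨β, y, z | z | z⟩ := mem_iUnion₂.1 (q w)
    exacts [(v2.1 z).trans (v β y), (z (u3.2 List.suffix_rfl)).elim,
      (mem_iUnion.1 z).elim fun _ z => (u4 z).elim]
  choose α hα using this
  have z := b3 _ fun s => a2 (α s)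
  obtain ⟨i₀, -⟩ := (Set.not_finite.1 fun e => z e.countable).nonempty
  obtain ⟨r, p, q⟩ := l.elim_countable_subcover (fun i => {.inl i} ∪ ⋃ s, V s (α s))
    (fun i => (cD i).isOpen.union (isOpen_iUnion fun s => (cV _ _).isOpen)) (by
      rintro (i | ⟨s, γ⟩) p
      exacts [mem_iUnion.2 ⟨i, .inl rfl⟩,
        mem_iUnion.2 ⟨i₀, .inr (mem_iUnion.2 ⟨s, v2.2 (hα s γ p)⟩)⟩])
  refine z (p.mono fun i v => ?_)
  obtain ⟨j, w, y | y⟩ := mem_iUnion₂.1 (q (k ⟨i, rfl⟩))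
  · cases y
    exact w
  obtain ⟨s, ⟨j, y, n, e⟩ | ⟨_, _, ⟨⟩⟩⟩ := mem_iUnion.1 y
  induction n with
  | zero => simp [c, b0] at e
  | succ n f =>
    simp only [c, Sum.elim_inl, b1, List.suffix_cons_iff (l₂ := b i n)] at e
    rcases e with e | e
    · cases e
      exact (v n y).elim
    · exact f e

end Pool.Agent.H.MP_3bc7a7_gt.B
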